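import Pool.Agent.Run7.h41.NF.Iface

set_option autoImplicit false

/-!
# Project NF, piece LEF: no wall crosses `H j` and `H (j + 1)`
-/

namespace Run7.h136.NF

open Run7.h41.NF

theorem X4_compl_right {n : ℕ} {A B : Set (FG n)} (h : X4 A B) : X4 A Bᶜ := by
  obtain ⟨h1, h2, h3, h4⟩ := h
  refine ⟨h2, ?_, h4, ?_⟩
  · rw [compl_compl]; exact h1
  · rw [compl_compl]; exact h3

/-- If `A' ∩ S` is infinite and `Aᶜ ∩ S` is finite then `A ∩ A'` is infinite. -/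
theorem inf_of {α : Type*} {A A' S : Set α} (h1 : (A' ∩ S).Infinite) (h2 : (Aᶜ ∩ S).Finite) :
    (A ∩ A').Infinite := by
  intro hf
  refine h1 ((hf.union h2).subset ?_)
  rintro y ⟨hy1, hy2⟩
  by_cases hy : y ∈ A
  · exact Or.inl ⟨hy, hy1⟩
  · exact Or.inr ⟨hy, hy2⟩

theorem X4_of_parts {n : ℕ} {A A' S T : Set (FG n)} (hS : X4 A' S) (hT : X4 A' T)
    (h1 : (Aᶜ ∩ S).Finite) (h2 : (A ∩ T).Finite) : X4 A A' := by
  refine ⟨inf_of hS.1 h1, inf_of hS.2.2.1 h1, ?_, ?_⟩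
  · exact inf_of hT.1 (by rw [compl_compl]; exact h2)
  · exact inf_of hT.2.2.1 (by rw [compl_compl]; exact h2)

theorem LEF0 (hSH : S_SH) (hWAL : S_WAL) (hAXI : S_AXI) (hLFA : S_LFA) (hCYC : S_CYC)
    (n : ℕ) (A : Set (FG n)) (hA : Wall A) (h0 : X4 A (H n 0)) (h1 : X4 A (H n 1)) : False := by
  obtain ⟨htr, hcompl, -, -, -, -, hchild, hcover, -, -, -⟩ := hSH n
  obtain ⟨hFC, hsep, -, -, -, -, -, hX4tr, -, -⟩ := hWAL n
  obtain ⟨-, -, -, -, -, hmono, hH0, hH1, -, -, -, -, -, -, -⟩ := hAXI n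
  -- `A` crosses all walls between
  have hE : ∀ r, r ≤ NN n → X4 A (Sh (pr n r) (lt n r)) := by
    intro r hr
    have hs1 : H n 1 ⊆ Sh (pr n r) (lt n r) := by rw [hH1]; exact hmono r (NN n) hr
    have hs0 : Sh (pr n r) (lt n r) ⊆ H n 0 := by rw [hH0]; exact hmono 0 r (Nat.zero_le _)
    refine ⟨h1.1.mono (Set.inter_subset_inter_right _ hs1),
      h0.2.1.mono (Set.inter_subset_inter_right _ (Set.compl_subset_compl.2 hs0)),
      h1.2.2.1.mono (Set.inter_subset_inter_right _ hs1),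
      h0.2.2.2.mono (Set.inter_subset_inter_right _ (Set.compl_subset_compl.2 hs0))⟩
  obtain ⟨v, s, hX, hleaf⟩ := hLFA n A (hFC A hA) ⟨_, _, hE 0 (Nat.zero_le _)⟩
  set u := v * el s with hu
  -- each child is almost contained in `A` or in `Aᶜ`
  have hpart : ∀ t, t ≠ op s → ¬ (Aᶜ ∩ Sh u t).Finite → (A ∩ Sh u t).Finite := by
    intro t ht hni
    by_contra hcon
    refine hleaf t ht ⟨hcon, ?_, hni, ?_⟩
    · exact hX.2.1.mono (Set.inter_subset_inter_right _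
        (Set.compl_subset_compl.2 (hchild v s t ht)))
    · exact hX.2.2.2.mono (Set.inter_subset_inter_right _
        (Set.compl_subset_compl.2 (hchild v s t ht)))
  -- covering
  have hcov : ∀ C : Set (FG n), (C ∩ Sh v s).Infinite → ∃ t, t ≠ op s ∧ (C ∩ Sh u t).Infinite := by
    intro C hC
    by_contra hcon
    push Not at hcon
    refine hC (((Set.finite_singleton u).union
      (Set.finite_iUnion fun t : {t : Lt n // t ≠ op s} =>
        hcon t.1 t.2)).subset ?_)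
    rintro y ⟨hy1, hy2⟩
    by_cases hyu : y = u
    · left; exact hyu
    · right
      obtain ⟨t, ht, hyt⟩ := hcover v y s hy2 hyu
      exact Set.mem_iUnion.2 ⟨⟨t, ht⟩, hy1, hyt⟩
  obtain ⟨t1, ht1, hi1⟩ := hcov A hX.1
  obtain ⟨t2, ht2, hi2⟩ := hcov Aᶜ hX.2.2.1
  obtain ⟨r, hr, hr1, hr2, hP⟩ := hCYC n (op s) (fun t => (Aᶜ ∩ Sh u t).Finite)
    ⟨t1, ht1, by
      by_contra hni
      exact hi1 (hpart t1 ht1 hni)⟩ ⟨t2, ht2, hi2⟩
  -- the translate
  set w := pr n (r + 1) with hw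
  have hw' : w = pr n r * el (lt n r) := rfl
  set g := u * w⁻¹ with hg
  have hgw : g * w = u := by rw [hg]; group
  have hc1 : X4 A (Sh w (op (lt n r))) := by
    rw [hw', ← hcompl]
    exact X4_compl_right (hE r hr.le)
  have hc2 : X4 A (Sh w (lt n (r + 1))) := hE (r + 1) hr
  have hd1 : X4 (tr g A) (Sh u (op (lt n r))) := by
    have := (hX4tr A (Sh w (op (lt n r))) g).2 hc1
    rwa [htr, hgw] at this
  have hd2 : X4 (tr g A) (Sh u (lt n (r + 1))) := by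
    have := (hX4tr A (Sh w (lt n (r + 1))) g).2 hc2
    rwa [htr, hgw] at this
  rcases hP with ⟨hp1, hp2⟩ | ⟨hp1, hp2⟩
  · exact hsep A g hA (X4_of_parts hd1 hd2 hp1 (hpart _ hr2 hp2))
  · exact hsep A g hA (X4_of_parts hd2 hd1 hp2 (hpart _ hr1 hp1))

theorem t_LEF (hSH : S_SH) (hWAL : S_WAL) (hAXI : S_AXI) (hLFA : S_LFA) (hCYC : S_CYC) :
    S_LEF := by
  intro n A hA j hj hj1
  obtain ⟨-, -, -, hWtr, -, -, -, hX4tr, -, -⟩ := hWAL n
  obtain ⟨-, -, -, -, -, -, -, -, htrH, -, -, -, -, -, -⟩ := hAXI n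
  refine LEF0 hSH hWAL hAXI hLFA hCYC n (tr (xx n ^ (-j)) A) (hWtr A _ hA) ?_ ?_
  · have := (hX4tr A (H n j) (xx n ^ (-j))).2 hj
    rwa [htrH, neg_add_cancel] at this
  · have := (hX4tr A (H n (j + 1)) (xx n ^ (-j))).2 hj1
    rwa [htrH, neg_add_cancel_left] at this

end Run7.h136.NF
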