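import Pool.Agent.Run7.h136.NF.LIP

set_option autoImplicit false

/-!
# Project NF, piece LEV: levels
-/

namespace Run7.h136.NF

open Run7.h41.NF
open Run7.h955 (Ev Thru Ins am cj)

theorem t_LEV (hEVB : S_EVB) (_hFCB : S_FCB) (hWAL : S_WAL) (hAXI : S_AXI) : S_LEV := by
  intro n j y z hy hz hR hniy hiz
  obtain ⟨hFC, -, -, -, -, hWSh, -, -, -, -⟩ := hWAL n
  obtain ⟨-, hdich, -, -, -, -, -, -, -, -⟩ := hEVB n
  have hWH : Wall (H n j) := hWSh _ _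
  have hthru : Thru (xx n) (H n j) := by
    obtain ⟨-, -, -, -, -, -, -, -, -, -, -, -, -, -, h⟩ := hAXI n
    exact h j
  have hcx : Cr (xx n) (H n j) := Or.inl hthru
  obtain ⟨y', z', A, B, hy', hz', hA, hB, hcA, hcB, hAB⟩ := hR
  have hcA' := Cr_gen hEVB hy hy' hcA
  have hcB' := Cr_gen hEVB hz hz' hcB
  have hy1 : y⁻¹ ≠ 1 := inv_ne_one.2 hy
  by_cases hcy : Cr y (H n j)
  · left
    exact ⟨y, xx n, H n j, H n j, rfl, rfl, hWH, hWH, hcy, hcx, Or.inl rfl⟩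
  · have hiy : Ins y (H n j)ᶜ := by
      rcases hdich y (H n j) hy (hFC _ hWH) with h1 | h1 <;>
        rcases hdich y⁻¹ (H n j) hy1 (hFC _ hWH) with h2 | h2
      · exact absurd ⟨h1, h2⟩ hniy
      · exact absurd (Or.inl ⟨h1, h2⟩) hcy
      · exact absurd (Or.inr ⟨h2, by rw [inv_inv]; exact h1⟩) hcy
      · exact ⟨h1, h2⟩
    rcases mid hEVB hy hz hcA' hcB' hAB hiy hiz with hX | hX
    · left
      exact ⟨y, xx n, A, H n j, rfl, rfl, hA, hWH, hcA', hcx, Or.inr hX⟩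
    · right
      exact ⟨z, xx n, B, H n j, rfl, rfl, hB, hWH, hcB', hcx, Or.inr hX⟩

end Run7.h136.NF
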