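import Pool.Agent.Run7.h41.NF.Iface

set_option autoImplicit false

/-!
# Project NF, piece LFA: leaves
-/

namespace Run7.h136.NF

open Run7.h41.NF

open scoped Classical in
theorem t_LFA (hSH : S_SH) (hCON : S_CON) : S_LFA := by
  intro n A hA hex
  obtain ⟨-, -, -, -, -, -, hchild, -, hnorm, -, -⟩ := hSH n
  set B : Set (FG n) := {x | ∃ t : Lt n, ¬ (x * el t ∈ A ↔ x ∈ A)} with hB
  have hBfin : B.Finite := by
    have : B = ⋃ t : Lt n, {x | ¬ (x * el t ∈ A ↔ x ∈ A)} := by
      ext x
      simp only [hB, Set.mem_setOf_eq, Set.mem_iUnion]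
    rw [this]
    exact Set.finite_iUnion fun t => hA (el t)
  have hne : ∀ (v : FG n) (s : Lt n), X4 A (Sh v s) → ∃ y ∈ Sh v s, y ∈ B := by
    intro v s hX
    by_contra hcon
    push Not at hcon
    have := hCON n A v s (fun y hy t _ => by
      have h1 := hcon y hy
      simp only [hB, Set.mem_setOf_eq, not_exists, not_not] at h1
      exact h1 t)
    rcases this with h | h
    · obtain ⟨y, hy⟩ := hX.2.2.1.nonempty
      exact hy.1 (h hy.2)
    · obtain ⟨y, hy⟩ := hX.1.nonempty
      exact (h hy.2) hy.1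
  have key : ∀ (N : ℕ) (v : FG n) (s : Lt n), X4 A (Sh v s) →
      (∑ b ∈ hBfin.toFinset.filter (· ∈ Sh v s), (v⁻¹ * b).norm) = N →
      ∃ (v : FG n) (s : Lt n), X4 A (Sh v s) ∧ ∀ t, t ≠ op s → ¬ X4 A (Sh (v * el s) t) := by
    intro N
    induction N using Nat.strong_induction_on with
    | _ N ih =>
      intro v s hX hN
      by_cases hl : ∀ t, t ≠ op s → ¬ X4 A (Sh (v * el s) t)
      · exact ⟨v, s, hX, hl⟩
      · push Not at hl
        obtain ⟨t, ht, hXt⟩ := hl
        refine ih _ ?_ (v * el s) t hXt rfl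
        rw [← hN]
        obtain ⟨y, hy, hyB⟩ := hne v s hX
        calc ∑ b ∈ hBfin.toFinset.filter (· ∈ Sh (v * el s) t), ((v * el s)⁻¹ * b).norm
            ≤ ∑ b ∈ hBfin.toFinset.filter (· ∈ Sh v s), ((v * el s)⁻¹ * b).norm := by
              refine Finset.sum_le_sum_of_subset ?_
              intro b hb
              rw [Finset.mem_filter] at hb ⊢
              exact ⟨hb.1, hchild v s t ht hb.2⟩
          _ < ∑ b ∈ hBfin.toFinset.filter (· ∈ Sh v s), (v⁻¹ * b).norm := by
              refine Finset.sum_lt_sum_of_nonempty ⟨y, ?_⟩ ?_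
              · rw [Finset.mem_filter, Set.Finite.mem_toFinset]
                exact ⟨hyB, hy⟩
              · intro b hb
                rw [Finset.mem_filter] at hb
                have := hnorm v b s hb.2
                omega
  obtain ⟨v, s, hX⟩ := hex
  exact key _ v s hX rfl

end Run7.h136.NF
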