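import Pool.Agent.Run7.h41.NF.Iface

set_option autoImplicit false

/-!
# Project NF, piece LIP: the coordinate is Lipschitz
-/

namespace Run7.h136.NF

open Run7.h41.NF
open Run7.h955 (Ev Thru Ins am cj)

theorem Cr_inv {n : ℕ} {z : FG n} {A : Set (FG n)} (h : Cr z A) : Cr z⁻¹ A := by
  rcases h with h | h
  · right; rwa [inv_inv]
  · left; exact h

/-- Two generators of an infinite cyclic subgroup. -/
theorem gen_pm (hEVB : S_EVB) {n : ℕ} {y y' : FG n} (hy : y ≠ 1)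
    (h : Subgroup.zpowers y = Subgroup.zpowers y') : y = y' ∨ y = y'⁻¹ := by
  have h1 : y ∈ Subgroup.zpowers y' := by rw [← h]; exact Subgroup.mem_zpowers y
  have h2 : y' ∈ Subgroup.zpowers y := by rw [h]; exact Subgroup.mem_zpowers y'
  obtain ⟨a, ha⟩ := Subgroup.mem_zpowers_iff.1 h1
  obtain ⟨b, hb⟩ := Subgroup.mem_zpowers_iff.1 h2
  have h3 : y ^ (b * a) = y ^ (1 : ℤ) := by
    rw [zpow_mul, hb, ha, zpow_one]
  have h4 : b * a = 1 := (hEVB n).1 y hy h3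
  rcases Int.eq_one_or_neg_one_of_mul_eq_one' h4 with ⟨-, h5⟩ | ⟨-, h5⟩
  · left; rw [← ha, h5, zpow_one]
  · right; rw [← ha, h5, zpow_neg, zpow_one]

theorem Cr_gen (hEVB : S_EVB) {n : ℕ} {y y' : FG n} (hy : y ≠ 1)
    (h : Subgroup.zpowers y = Subgroup.zpowers y') {A : Set (FG n)} (hc : Cr y' A) : Cr y A := by
  rcases gen_pm hEVB hy h with rfl | rfl
  · exact hc
  · exact Cr_inv hc

/-- A line with both ends in `S` which crosses `A`: the corners `A ∩ S`, `Aᶜ ∩ S` are infinite. -/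
theorem corners (hEVB : S_EVB) {n : ℕ} {y : FG n} (hy : y ≠ 1) {A S : Set (FG n)}
    (hc : Cr y A) (hS : Ins y S) : (A ∩ S).Infinite ∧ (Aᶜ ∩ S).Infinite := by
  obtain ⟨-, -, -, -, hinf, -, -, -, -, -⟩ := hEVB n
  have hy' : y⁻¹ ≠ 1 := inv_ne_one.2 hy
  rcases hc with hc | hc
  · exact ⟨hinf y A S hy hc.1 hS.1, hinf y⁻¹ Aᶜ S hy' hc.2 hS.2⟩
  · have h2 := hc.2
    rw [inv_inv] at h2
    exact ⟨hinf y⁻¹ A S hy' hc.1 hS.2, hinf y Aᶜ S hy h2 hS.1⟩

theorem fin_corner {α : Type*} {A B S : Set α} (h1 : (A ∩ S).Finite) (h2 : (B ∩ Sᶜ).Finite) :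
    (A ∩ B).Finite := by
  refine (h1.union h2).subset ?_
  rintro y ⟨hy1, hy2⟩
  by_cases hy : y ∈ S
  · exact Or.inl ⟨hy1, hy⟩
  · exact Or.inr ⟨hy2, hy⟩

/-- Two related lines on different sides of `S`. -/
theorem mid (hEVB : S_EVB) {n : ℕ} {y z : FG n} (hy : y ≠ 1) (hz : z ≠ 1) {A B S : Set (FG n)}
    (hA : Cr y A) (hB : Cr z B) (hAB : A = B ∨ X4 A B) (h1 : Ins y Sᶜ) (h2 : Ins z S) :
    X4 A S ∨ X4 B S := by
  obtain ⟨a1, a2⟩ := corners hEVB hy hA h1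
  obtain ⟨b1, b2⟩ := corners hEVB hz hB h2
  by_contra hcon
  rw [not_or] at hcon
  obtain ⟨c1, c2⟩ := hcon
  have d1 : (A ∩ S).Finite ∨ (Aᶜ ∩ S).Finite := by
    by_contra hne
    rw [not_or] at hne
    exact c1 ⟨hne.1, a1, hne.2, a2⟩
  have d2 : (B ∩ Sᶜ).Finite ∨ (Bᶜ ∩ Sᶜ).Finite := by
    by_contra hne
    rw [not_or] at hne
    exact c2 ⟨b1, hne.1, b2, hne.2⟩
  rcases hAB with rfl | hX
  · rcases d1 with d1 | d1
    · exact b1 d1
    · exact b2 d1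
  · obtain ⟨x1, x2, x3, x4⟩ := hX
    rcases d1 with d1 | d1 <;> rcases d2 with d2 | d2
    · exact x1 (fin_corner d1 d2)
    · exact x2 (fin_corner d1 d2)
    · exact x3 (fin_corner d1 d2)
    · exact x4 (fin_corner d1 d2)

/-- Monotonicity. -/
theorem X4_mono {n : ℕ} {A S T U : Set (FG n)} (h1 : S ⊆ T) (h2 : T ⊆ U) (hS : X4 A S)
    (hU : X4 A U) : X4 A T :=
  ⟨hS.1.mono (Set.inter_subset_inter_right _ h1),
    hU.2.1.mono (Set.inter_subset_inter_right _ (Set.compl_subset_compl.2 h2)),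
    hS.2.2.1.mono (Set.inter_subset_inter_right _ h1),
    hU.2.2.2.mono (Set.inter_subset_inter_right _ (Set.compl_subset_compl.2 h2))⟩

theorem xxne (hAXI : S_AXI) (n : ℕ) : xx n ≠ 1 := by
  obtain ⟨-, -, -, -, -, -, -, -, -, -, -, -, -, h, -⟩ := hAXI n
  exact h

theorem aut_ne (hAXI : S_AXI) (n : ℕ) (ψ : MulAut (FG n)) : ψ (xx n) ≠ 1 := by
  intro h
  apply xxne hAXI n
  exact (MulEquiv.map_eq_one_iff ψ).1 h

theorem t_LIP (hEVB : S_EVB) (_hWAL : S_WAL) (hAXI : S_AXI) (hLEF : S_LEF) : S_LIP := by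
  intro n κ hκ C hC D hD hCx hDx hR
  by_contra hlt
  push Not at hlt
  obtain ⟨ψ, rfl⟩ := hC
  obtain ⟨φ, rfl⟩ := hD
  obtain ⟨-, -, -, -, -, -, -, -, -, hmono, -, -, -, -, -⟩ := hAXI n
  obtain ⟨y, z, A, B, hy, hz, hA, hB, hcA, hcB, hAB⟩ := hR
  obtain ⟨-, -, ha⟩ := hκ ψ hCx _ rfl
  obtain ⟨hb, -, -⟩ := hκ φ hDx _ rfl
  have hcA' := Cr_gen hEVB (aut_ne hAXI n ψ) hy hcA
  have hcB' := Cr_gen hEVB (aut_ne hAXI n φ) hz hcB
  set k := κ (Subgroup.zpowers (ψ (xx n))) with hk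
  have hkey : ∀ j, k + NN n + 3 ≤ j → j ≤ k + NN n + 5 → X4 A (H n j) ∨ X4 B (H n j) := by
    intro j hj1 hj2
    exact mid hEVB (aut_ne hAXI n ψ) (aut_ne hAXI n φ) hcA' hcB' hAB (ha j hj1)
      (hb j (by omega))
  have hno : ∀ (W : Set (FG n)), Wall W → X4 W (H n (k + NN n + 3)) →
      ¬ X4 W (H n (k + NN n + 5)) := by
    intro W hW h3 h5
    refine hLEF n W hW (k + NN n + 3) h3 ?_
    exact X4_mono (hmono _ _ (by omega)) (hmono _ _ (by omega)) h5 h3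
  have hno1 : ∀ (W : Set (FG n)), Wall W → X4 W (H n (k + NN n + 3)) →
      ¬ X4 W (H n (k + NN n + 4)) := by
    intro W hW h3 h5
    refine hLEF n W hW (k + NN n + 3) h3 ?_
    have : k + NN n + 3 + 1 = k + NN n + 4 := by ring
    rw [this]; exact h5
  have hno2 : ∀ (W : Set (FG n)), Wall W → X4 W (H n (k + NN n + 4)) →
      ¬ X4 W (H n (k + NN n + 5)) := by
    intro W hW h3 h5
    refine hLEF n W hW (k + NN n + 4) h3 ?_
    have : k + NN n + 4 + 1 = k + NN n + 5 := by ring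
    rw [this]; exact h5
  rcases hkey (k + NN n + 3) (by omega) (by omega) with h3 | h3 <;>
    rcases hkey (k + NN n + 4) (by omega) (by omega) with h4 | h4 <;>
    rcases hkey (k + NN n + 5) (by omega) (by omega) with h5 | h5
  · exact hno1 A hA h3 h4
  · exact hno1 A hA h3 h4
  · exact hno A hA h3 h5
  · exact hno2 B hB h4 h5
  · exact hno2 A hA h4 h5
  · exact hno B hB h3 h5
  · exact hno1 B hB h3 h4
  · exact hno1 B hB h3 h4

end Run7.h136.NF
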