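import Pool.Agent.Run7.h41.NF.Iface

set_option autoImplicit false

/-!
# Project NF, piece SHI: the coordinate and the conjugation by `xx`
-/

namespace Run7.h136.NF

open Run7.h41.NF
open Run7.h955 (Ev Thru Ins am cj)

theorem t_SHI (hEVB : S_EVB) (hAXI : S_AXI) : S_SHI := by
  intro n κ hκ C hC hCx
  obtain ⟨-, -, -, -, -, hEvtr, -, -, -, -⟩ := hEVB n
  obtain ⟨-, -, -, -, -, -, -, -, htrH, -, -, -, -, -, -⟩ := hAXI n
  obtain ⟨ψ, rfl⟩ := hC
  have hcj : cj (xx n) (Subgroup.zpowers (ψ (xx n))) =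
      Subgroup.zpowers ((MulAut.conj (xx n) * ψ) (xx n)) := by
    simp [cj, MonoidHom.map_zpowers]
  have hval : (MulAut.conj (xx n) * ψ) (xx n) = xx n * ψ (xx n) * (xx n)⁻¹ := by
    simp [MulAut.conj_apply]
  have hne : Subgroup.zpowers ((MulAut.conj (xx n) * ψ) (xx n)) ≠ Subgroup.zpowers (xx n) := by
    intro he
    apply hCx
    have h1 := congrArg (fun K : Subgroup (FG n) => K.map (MulAut.conj (xx n)⁻¹).toMonoidHom) he
    simp only [MonoidHom.map_zpowers] at h1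
    have h2 : (MulAut.conj (xx n)⁻¹).toMonoidHom ((MulAut.conj (xx n) * ψ) (xx n)) = ψ (xx n) := by
      simp [MulAut.conj_apply]
      group
    have h3 : (MulAut.conj (xx n)⁻¹).toMonoidHom (xx n) = xx n := by
      simp
    rw [h2, h3] at h1
    exact h1
  rw [hcj]
  obtain ⟨ha1, ha2, -⟩ := hκ ψ hCx _ rfl
  obtain ⟨hb1, hb2, -⟩ := hκ (MulAut.conj (xx n) * ψ) hne _ rfl
  have hIns : ∀ j : ℤ, Ins ((MulAut.conj (xx n) * ψ) (xx n)) (H n (j + 1)) ↔
      Ins (ψ (xx n)) (H n j) := by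
    intro j
    have ht : H n (j + 1) = tr (xx n) (H n j) := by
      have := htrH 1 j
      rw [zpow_one] at this
      rw [this, add_comm]
    unfold Ins
    rw [hval, ht, hEvtr]
    have : (xx n * ψ (xx n) * (xx n)⁻¹)⁻¹ = xx n * (ψ (xx n))⁻¹ * (xx n)⁻¹ := by group
    rw [this, hEvtr]
  apply le_antisymm
  · by_contra hlt
    push Not at hlt
    have := hb1 (κ (Subgroup.zpowers (ψ (xx n))) + 1 + 1) (by omega)
    exact ha2 ((hIns _).1 this)
  · by_contra hlt
    push Not at hlt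
    have := ha1 (κ (Subgroup.zpowers ((MulAut.conj (xx n) * ψ) (xx n)))) (by omega)
    exact hb2 ((hIns _).2 this)

end Run7.h136.NF
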